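import Pool.Agent.BEL.StmtsD

/-!
# Squad BEL (MP_be01ff_an), row CFL
-/

namespace Pool.Agent.BEL.H16

open MeasureTheory Filter Topology Set
open scoped InnerProductSpace ENNReal

noncomputable section

theorem cfl_p2_le {H : Type} [NormedAddCommGroup H] [InnerProductSpace ℝ H] (z : KK H) :
    ‖P2 z‖ ≤ ‖z‖ := by
  have h := WithLp.prod_norm_sq_eq_of_L2 z
  have h2 : P2 z = z.snd := rfl
  rw [h2]
  apply le_of_sq_le_sq _ (norm_nonneg z)
  rw [h]
  nlinarith [sq_nonneg ‖z.fst‖]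

theorem cfl_qlip {a al M : ℝ} (ha : 0 < a) (hal : 0 < al) (hM : 0 < M)
    (hc : Continuous (cf a al M)) (h0 : ∀ s, 0 ≤ cf a al M s) (h1 : ∀ s, cf a al M s ≤ M)
    (e : ℝ) (he : 0 < e) :
    ∃ K : ℝ, 0 < K ∧ ∀ s r, |cf a al M s - cf a al M r| ≤ e + K * |s - r| := by
  have ht : Tendsto (fun s : ℝ => a * (al + 1) * |s| ^ al) (cocompact ℝ) atTop := by
    have h2 : Tendsto (fun s : ℝ => ‖s‖ ^ al) (cocompact ℝ) atTop :=
      (tendsto_rpow_atTop hal).comp tendsto_norm_cocompact_atTop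
    exact Tendsto.const_mul_atTop (by positivity) h2
  have hlim : Tendsto (cf a al M) (cocompact ℝ) (𝓝 M) := by
    apply tendsto_const_nhds.congr'
    filter_upwards [ht.eventually_ge_atTop M] with s hs
    unfold cf
    rw [min_eq_right hs]
  have hu : UniformContinuous (cf a al M) := hc.uniformContinuous_of_tendsto_cocompact hlim
  rw [Metric.uniformContinuous_iff] at hu
  obtain ⟨δ, hδ, h⟩ := hu e he
  refine ⟨M / δ, by positivity, fun s r => ?_⟩
  have hab : |cf a al M s - cf a al M r| ≤ M := by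
    rw [abs_le]
    constructor
    · linarith [h0 s, h1 r]
    · linarith [h0 r, h1 s]
  by_cases hd : |s - r| < δ
  · have h3 := h (a := s) (b := r) (by rw [Real.dist_eq]; exact hd)
    rw [Real.dist_eq] at h3
    have : 0 ≤ M / δ * |s - r| := by positivity
    linarith
  · rw [not_lt] at hd
    have h4 : M = M / δ * δ := by field_simp
    have h5 : M / δ * δ ≤ M / δ * |s - r| := mul_le_mul_of_nonneg_left hd (by positivity)
    linarith

theorem cfl_l2 {X : Type} [MeasurableSpace X] {μ : Measure X} (w v : Lp ℝ 2 μ) :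
    Integrable (fun x => (w x - v x) ^ 2) μ ∧ ∫ x, (w x - v x) ^ 2 ∂μ = ‖w - v‖ ^ 2 := by
  constructor
  · have h := ((Lp.memLp w).sub (Lp.memLp v)).integrable_sq
    exact h
  · rw [← real_inner_self_eq_norm_sq, L2.inner_def]
    apply integral_congr_ae
    filter_upwards [Lp.coeFn_sub w v] with x hx
    rw [hx]
    simp [sq]

theorem cfl (cgl : CglStmt) : CflStmt := by
  intro X _ μ _ κ a al b om W Z S ha hal hG hS V M T ε hM hε
  have hcf := (cgl a al 0 ha hal le_rfl).2.2.2.2.2.2.2.2.2.2.2.2.2.2 M hM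
  obtain ⟨hc, h0, h1, -⟩ := hcf
  set m : ℝ := μ.real univ with hm
  have hm0 : 0 ≤ m := measureReal_nonneg
  set e : ℝ := Real.sqrt (ε / (4 * (m + 1))) with he
  have he0 : 0 < e := Real.sqrt_pos.mpr (by positivity)
  have he2 : e ^ 2 = ε / (4 * (m + 1)) := Real.sq_sqrt (by positivity)
  obtain ⟨K, hK, hq⟩ := cfl_qlip ha hal hM hc h0 h1 e he0
  set η : ℝ := Real.sqrt (ε / (4 * K ^ 2)) with hη
  have hη0 : 0 < η := Real.sqrt_pos.mpr (by positivity)
  have hη2 : η ^ 2 = ε / (4 * K ^ 2) := Real.sq_sqrt (by positivity)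
  have hlim := Metric.tendstoUniformlyOn_iff.mp (hS.lim V T) η hη0
  have hbig : ∀ᶠ n : ℕ in atTop, M ≤ a * (al + 1) * (n : ℝ) ^ al := by
    have h2 : Tendsto (fun n : ℕ => ((n : ℝ)) ^ al) atTop atTop :=
      (tendsto_rpow_atTop hal).comp tendsto_natCast_atTop_atTop
    have h3 : Tendsto (fun n : ℕ => a * (al + 1) * ((n : ℝ)) ^ al) atTop atTop :=
      Tendsto.const_mul_atTop (by positivity) h2
    exact h3.eventually_ge_atTop M
  filter_upwards [hlim, hbig] with n hn hb t ht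
  have hmin : ∀ s, min (ql a al n s) M = cf a al M s := fun s =>
    ((cgl a al n ha hal (Nat.cast_nonneg n)).2.2.2.2.2.2.2.2.2.2.2.2.2.2 M hM).2.2.2 s hb
  set w : Lp ℝ 2 μ := P2 (W t (Z n V t)) with hw
  set v : Lp ℝ 2 μ := P2 (S t V) with hv
  have hd : ‖w - v‖ ≤ η := by
    have h2 : w - v = P2 (W t (Z n V t) - S t V) := by rw [map_sub]
    rw [h2]
    refine (cfl_p2_le _).trans ?_
    have h3 := hn t ht
    rw [dist_comm, dist_eq_norm] at h3
    exact h3.le
  obtain ⟨hi, hI⟩ := cfl_l2 w v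
  have hle : ∫ x, (min (ql a al n (w x)) M - cf a al M (v x)) ^ 2 ∂μ ≤
      ∫ x, (2 * e ^ 2 + 2 * K ^ 2 * (w x - v x) ^ 2) ∂μ := by
    apply integral_mono_of_nonneg
    · exact Eventually.of_forall fun x => sq_nonneg _
    · exact (integrable_const _).add (hi.const_mul _)
    · refine Eventually.of_forall fun x => ?_
      show (min (ql a al n (w x)) M - cf a al M (v x)) ^ 2 ≤
        2 * e ^ 2 + 2 * K ^ 2 * (w x - v x) ^ 2
      rw [hmin]
      have h4 := hq (w x) (v x)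
      have h5 : (cf a al M (w x) - cf a al M (v x)) ^ 2 ≤ (e + K * |w x - v x|) ^ 2 := by
        rw [← sq_abs]
        exact pow_le_pow_left₀ (abs_nonneg _) h4 2
      have h6 : (w x - v x) ^ 2 = |w x - v x| ^ 2 := (sq_abs _).symm
      rw [h6]
      nlinarith [sq_nonneg (e - K * |w x - v x|)]
  refine hle.trans ?_
  have hsum : ∫ x, (2 * e ^ 2 + 2 * K ^ 2 * (w x - v x) ^ 2) ∂μ =
      μ.real univ * (2 * e ^ 2) + 2 * K ^ 2 * ‖w - v‖ ^ 2 := by
    have i1 : Integrable (fun _ : X => 2 * e ^ 2) μ := integrable_const _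
    have i2 : Integrable (fun x : X => 2 * K ^ 2 * (w x - v x) ^ 2) μ := hi.const_mul _
    have h13 : ∫ x, 2 * K ^ 2 * (w x - v x) ^ 2 ∂μ = 2 * K ^ 2 * ‖w - v‖ ^ 2 := by
      rw [integral_const_mul, hI]
    have h14 : ∫ _ : X, 2 * e ^ 2 ∂μ = μ.real univ * (2 * e ^ 2) := by
      rw [integral_const, smul_eq_mul]
    rw [integral_add i1 i2, h13, h14]
  rw [hsum]
  have h7 : μ.real univ * (2 * e ^ 2) ≤ ε / 2 := by
    rw [← hm, he2]
    rw [show m * (2 * (ε / (4 * (m + 1)))) = ε / 2 * (m / (m + 1)) by field_simp; ring]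
    have h8 : m / (m + 1) ≤ 1 := by
      rw [div_le_one (by positivity)]
      linarith
    nlinarith
  have h9 : 2 * K ^ 2 * ‖w - v‖ ^ 2 ≤ ε / 2 := by
    have h10 : ‖w - v‖ ^ 2 ≤ η ^ 2 := pow_le_pow_left₀ (norm_nonneg _) hd 2
    have h11 : 2 * K ^ 2 * ‖w - v‖ ^ 2 ≤ 2 * K ^ 2 * η ^ 2 :=
      mul_le_mul_of_nonneg_left h10 (by positivity)
    have h12 : 2 * K ^ 2 * η ^ 2 = ε / 2 := by
      rw [hη2]
      field_simp
      ring
    linarith
  linarith

end

end Pool.Agent.BEL.H16
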