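import Pool.Agent.BEL.StmtsU

/-!
# Squad BEL, row UMI: the multiplier `u`
-/

set_option autoImplicit false

namespace Pool.Agent.BEL.H16

open Set Filter Topology MeasureTheory
open scoped InnerProductSpace ENNReal

noncomputable section

/-- Hölder in time -/
theorem holder_time {D : ℝ → ℝ} {s t β : ℝ} (hst : s ≤ t) (hβ0 : 0 < β) (hβ1 : β ≤ 1)
    (hD : IntervalIntegrable D volume s t) (h0 : ∀ r, 0 ≤ D r) :
    IntervalIntegrable (fun r => D r ^ β) volume s t ∧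
      ∫ r in s..t, D r ^ β ≤ (t - s) ^ (1 - β) * (∫ r in s..t, D r) ^ β := by
  have hb : ∀ x : ℝ, 0 ≤ x → x ^ β ≤ 1 + β * (x - 1) := fun x hx => by
    have := rpow_one_add_le_one_add_mul_self (s := x - 1) (by linarith) hβ0.le hβ1
    rwa [add_sub_cancel] at this
  have hint : IntervalIntegrable (fun r => D r ^ β) volume s t := by
    refine (hD.add (intervalIntegrable_const (c := (1 : ℝ)))).mono_fun
      ((hD.def'.aestronglyMeasurable.aemeasurable.pow_const β).aestronglyMeasurable) ?_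
    refine Eventually.of_forall fun r => ?_
    have h1 := hb (D r) (h0 r)
    have h2 := h0 r
    show ‖D r ^ β‖ ≤ ‖D r + 1‖
    rw [Real.norm_of_nonneg (Real.rpow_nonneg h2 β), Real.norm_of_nonneg (by linarith)]
    nlinarith
  refine ⟨hint, ?_⟩
  obtain ⟨I, hI⟩ : ∃ I, I = ∫ r in s..t, D r := ⟨_, rfl⟩
  obtain ⟨J, hJ⟩ : ∃ J, J = ∫ r in s..t, D r ^ β := ⟨_, rfl⟩
  rw [← hI, ← hJ]
  have hI0 : 0 ≤ I := by rw [hI]; exact intervalIntegral.integral_nonneg_of_forall hst h0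
  rcases hI0.eq_or_lt with hI1 | hI1
  · -- the integral vanishes
    have h1 : D =ᵐ[volume.restrict (Ioc s t)] 0 :=
      (intervalIntegral.integral_eq_zero_iff_of_le_of_nonneg_ae hst
        (Eventually.of_forall h0) hD).1 (by rw [← hI, ← hI1])
    have h2 : J = 0 := by
      rw [hJ, intervalIntegral.integral_of_le hst]
      refine integral_eq_zero_of_ae ?_
      filter_upwards [h1] with r hr
      show D r ^ β = 0
      rw [hr]
      exact Real.zero_rpow hβ0.ne'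
    rw [h2, ← hI1, Real.zero_rpow hβ0.ne', mul_zero]
  · have hlt : s < t := by
      rcases hst.eq_or_lt with h | h
      · exfalso
        rw [h, intervalIntegral.integral_same] at hI
        linarith
      · exact h
    obtain ⟨A, hA⟩ : ∃ A, A = t - s := ⟨_, rfl⟩
    have hA0 : 0 < A := by linarith
    rw [← hA]
    have h1 : (A / I) ^ β * J ≤ A := by
      have h2 : ∫ r in s..t, (D r * (A / I)) ^ β ≤
          ∫ r in s..t, (1 + β * (D r * (A / I) - 1)) := by
        refine intervalIntegral.integral_mono_on hst ?_ ?_ fun r _ =>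
          hb _ (mul_nonneg (h0 r) (by positivity))
        · have h3 : (fun r => (D r * (A / I)) ^ β) = fun r => D r ^ β * (A / I) ^ β := by
            funext r
            rw [Real.mul_rpow (h0 r) (by positivity)]
          rw [h3]
          exact hint.mul_const _
        · exact intervalIntegrable_const.add
            (((hD.mul_const _).sub intervalIntegrable_const).const_mul _)
      have h4 : ∫ r in s..t, (D r * (A / I)) ^ β = (A / I) ^ β * J := by
        rw [hJ, ← intervalIntegral.integral_const_mul]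
        refine intervalIntegral.integral_congr fun r _ => ?_
        show (D r * (A / I)) ^ β = (A / I) ^ β * D r ^ β
        rw [Real.mul_rpow (h0 r) (by positivity), mul_comm]
      have h5 : ∫ r in s..t, (1 + β * (D r * (A / I) - 1)) = A := by
        rw [intervalIntegral.integral_add intervalIntegrable_const
          (((hD.mul_const _).sub intervalIntegrable_const).const_mul _),
          intervalIntegral.integral_const_mul,
          intervalIntegral.integral_sub (hD.mul_const _) intervalIntegrable_const,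
          intervalIntegral.integral_mul_const, ← hI, intervalIntegral.integral_const,
          smul_eq_mul, mul_one, ← hA, mul_div_cancel₀ _ hI1.ne', sub_self, mul_zero, add_zero]
      rw [h4, h5] at h2
      exact h2
    have h6 : (I / A) ^ β * (A / I) ^ β = 1 := by
      rw [← Real.mul_rpow (by positivity) (by positivity)]
      rw [show I / A * (A / I) = 1 by field_simp, Real.one_rpow]
    calc J = (I / A) ^ β * ((A / I) ^ β * J) := by rw [← mul_assoc, h6, one_mul]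
      _ ≤ (I / A) ^ β * A := by gcongr
      _ = A ^ (1 - β) * I ^ β := by
        rw [Real.div_rpow hI0 hA0.le, Real.rpow_sub hA0, Real.rpow_one]
        field_simp

variable {X : Type} [MeasurableSpace X] {μ : Measure X}

theorem parseval (b : HilbertBasis ℕ ℝ (Lp ℝ 2 μ)) (x : Lp ℝ 2 μ) :
    HasSum (fun k => ⟪b k, x⟫_ℝ ^ 2) (‖x‖ ^ 2) := by
  have h := b.hasSum_inner_mul_inner x x
  rw [real_inner_self_eq_norm_sq] at h
  refine h.congr_fun ?_ |> id
  intro k
  rw [real_inner_comm x (b k), sq]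

theorem bessel (b : HilbertBasis ℕ ℝ (Lp ℝ 2 μ)) (x : Lp ℝ 2 μ) (n : ℕ) :
    ∑ k ∈ Finset.range n, ⟪b k, x⟫_ℝ ^ 2 ≤ ‖x‖ ^ 2 :=
  sum_le_hasSum _ (fun _ _ => sq_nonneg _) (parseval b x)

theorem isum {f : ℕ → ℝ → ℝ} {s t : ℝ} (n : ℕ)
    (h : ∀ k, IntervalIntegrable (f k) volume s t) :
    IntervalIntegrable (fun r => ∑ k ∈ Finset.range n, f k r) volume s t := by
  have h1 := IntervalIntegrable.sum (Finset.range n) (f := f) fun k _ => h k
  have h2 : (∑ k ∈ Finset.range n, f k) = fun r => ∑ k ∈ Finset.range n, f k r := by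
    funext r
    rw [Finset.sum_apply]
  rwa [h2] at h1

/-- One mode: the multiplier identity divided by the frequency. -/
theorem mode (upr : UprStmt) {a al : ℝ} {b : HilbertBasis ℕ ℝ (Lp ℝ 2 μ)} {om : ℕ → ℝ}
    (hpos : ∀ k, 0 < om k) {z1 z2 : ℝ → Lp ℝ 2 μ} (hz : CoreSol μ a al b om z1 z2) {s t : ℝ}
    (hs : 0 ≤ s) (hst : s ≤ t) (k : ℕ) :
    IntervalIntegrable (fun r => ⟪b k, z1 r⟫_ℝ ^ 2) volume s t ∧
    IntervalIntegrable (fun r => ⟪b k, z2 r⟫_ℝ ^ 2) volume s t ∧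
    IntervalIntegrable (fun r => ⟪b k, z1 r⟫_ℝ / om k * ∫ x, gf a al (z2 r x) * b k x ∂μ)
      volume s t ∧
    ∫ r in s..t, ⟪b k, z1 r⟫_ℝ ^ 2 = (∫ r in s..t, ⟪b k, z2 r⟫_ℝ ^ 2) +
      (⟪b k, z1 s⟫_ℝ * ⟪b k, z2 s⟫_ℝ / om k - ⟪b k, z1 t⟫_ℝ * ⟪b k, z2 t⟫_ℝ / om k) -
      ∫ r in s..t, ⟪b k, z1 r⟫_ℝ / om k * ∫ x, gf a al (z2 r x) * b k x ∂μ := by
  have hom := hpos k
  have ht : 0 ≤ t := hs.trans hst
  obtain ⟨p, hp⟩ : ∃ p : ℝ → ℝ, p = fun r => ⟪b k, z1 r⟫_ℝ := ⟨_, rfl⟩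
  obtain ⟨q, hq⟩ : ∃ q : ℝ → ℝ, q = fun r => ⟪b k, z2 r⟫_ℝ := ⟨_, rfl⟩
  obtain ⟨G, hG⟩ : ∃ G : ℝ → ℝ, G = fun r => ∫ x, gf a al (z2 r x) * b k x ∂μ := ⟨_, rfl⟩
  have ep : ∀ r, ⟪b k, z1 r⟫_ℝ = p r := fun r => by rw [hp]
  have eq : ∀ r, ⟪b k, z2 r⟫_ℝ = q r := fun r => by rw [hq]
  have eG : ∀ r, ∫ x, gf a al (z2 r x) * b k x ∂μ = G r := fun r => by rw [hG]
  simp only [ep, eq, eG]
  have cp : ContinuousOn p (Ici 0) := by
    rw [hp]
    exact (continuousOn_const (c := b k)).inner hz.c1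
  have cq : ContinuousOn q (Ici 0) := by
    rw [hq]
    exact (continuousOn_const (c := b k)).inner hz.c2
  have hsub : ∀ u v : ℝ, 0 ≤ u → 0 ≤ v → uIcc u v ⊆ Ici 0 := fun u v hu hv r hr =>
    le_trans (le_min hu hv) hr.1
  have ip : ∀ u v, 0 ≤ u → 0 ≤ v → IntervalIntegrable p volume u v := fun u v hu hv =>
    (cp.mono (hsub u v hu hv)).intervalIntegrable
  have iq : ∀ u v, 0 ≤ u → 0 ≤ v → IntervalIntegrable q volume u v := fun u v hu hv =>
    (cq.mono (hsub u v hu hv)).intervalIntegrable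
  have iG : ∀ v, 0 ≤ v → IntervalIntegrable G volume 0 v := fun v hv => by
    have := hz.gint k v hv
    simp only [eG] at this
    exact this
  have iG' : ∀ u v, 0 ≤ u → 0 ≤ v → IntervalIntegrable G volume u v := fun u v hu hv =>
    (iG u hu).symm.trans (iG v hv)
  have h1 : ∀ r, s ≤ r → r ≤ t → p r = p s + ∫ x in s..r, om k * q x := by
    intro r hr1 hr2
    have a1 := hz.m1 k r (hs.trans hr1)
    have a2 := hz.m1 k s hs
    simp only [ep, eq] at a1 a2
    have a3 := intervalIntegral.integral_interval_sub_left (iq 0 r le_rfl (hs.trans hr1))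
      (iq 0 s le_rfl hs)
    rw [intervalIntegral.integral_const_mul, ← a3, a1, a2]
    ring
  have h2 : ∀ r, s ≤ r → r ≤ t → q r = q s + ∫ x in s..r, -(om k * p x + G x) := by
    intro r hr1 hr2
    have a1 := hz.m2 k r (hs.trans hr1)
    have a2 := hz.m2 k s hs
    simp only [ep, eq, eG] at a1 a2
    have i1 : ∀ v, 0 ≤ v → IntervalIntegrable (fun x => om k * p x + G x) volume 0 v :=
      fun v hv => ((ip 0 v le_rfl hv).const_mul _).add (iG v hv)
    have a3 := intervalIntegral.integral_interval_sub_left (i1 r (hs.trans hr1)) (i1 s hs)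
    rw [intervalIntegral.integral_neg, ← a3, a1, a2]
    ring
  have cpst : ContinuousOn p (uIcc s t) := cp.mono (hsub s t hs ht)
  have cqst : ContinuousOn q (uIcc s t) := cq.mono (hsub s t hs ht)
  have ipp : IntervalIntegrable (fun r => p r ^ 2) volume s t := (cpst.pow 2).intervalIntegrable
  have iqq : IntervalIntegrable (fun r => q r ^ 2) volume s t := (cqst.pow 2).intervalIntegrable
  have ipG : IntervalIntegrable (fun r => p r / om k * G r) volume s t :=
    (iG' s t hs ht).continuousOn_mul (cpst.div_const _)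
  refine ⟨ipp, iqq, ipG, ?_⟩
  have h3 := upr p q (fun x => om k * q x) (fun x => -(om k * p x + G x)) s t hst
    ((iq s t hs ht).const_mul _) (((ip s t hs ht).const_mul _).add (iG' s t hs ht)).neg h1 h2
  have h4 : ∫ r in s..t, (om k * q r * q r + p r * -(om k * p r + G r)) =
      om k * (∫ r in s..t, q r ^ 2) - om k * (∫ r in s..t, p r ^ 2) -
        om k * ∫ r in s..t, p r / om k * G r := by
    rw [← intervalIntegral.integral_const_mul, ← intervalIntegral.integral_const_mul,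
      ← intervalIntegral.integral_const_mul, ← intervalIntegral.integral_sub
        (iqq.const_mul _) (ipp.const_mul _), ← intervalIntegral.integral_sub
        ((iqq.const_mul _).sub (ipp.const_mul _)) (ipG.const_mul _)]
    refine intervalIntegral.integral_congr fun r _ => ?_
    show om k * q r * q r + p r * -(om k * p r + G r) =
      om k * q r ^ 2 - om k * p r ^ 2 - om k * (p r / om k * G r)
    field_simp
    ring
  rw [h4] at h3
  have h5 : p s * q s / om k - p t * q t / om k = -((p t * q t - p s * q s) / om k) := by ring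
  rw [h5, h3]
  field_simp
  ring

theorem enr_mono {a al : ℝ} {b : HilbertBasis ℕ ℝ (Lp ℝ 2 μ)} {om : ℕ → ℝ}
    {z1 z2 : ℝ → Lp ℝ 2 μ} (hz : CoreSol μ a al b om z1 z2) {s t : ℝ}
    (hs : 0 ≤ s) (hst : s ≤ t) : enr μ z1 z2 t ≤ enr μ z1 z2 s := by
  have h0 : 0 ≤ enr μ z1 z2 s := by unfold enr; positivity
  exact (ENNReal.ofReal_le_ofReal_iff h0).1 (le_self_add.trans (hz.en s t hs hst))

/-- The boundary terms. -/
theorem bdry {b : HilbertBasis ℕ ℝ (Lp ℝ 2 μ)} {om : ℕ → ℝ} (h0 : 0 < om 0)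
    (hom : ∀ k, om 0 ≤ om k) (z1 z2 : ℝ → Lp ℝ 2 μ) (r : ℝ) (n : ℕ) :
    |∑ k ∈ Finset.range n, ⟪b k, z1 r⟫_ℝ * ⟪b k, z2 r⟫_ℝ / om k| ≤
      enr μ z1 z2 r / (2 * om 0) := by
  calc |∑ k ∈ Finset.range n, ⟪b k, z1 r⟫_ℝ * ⟪b k, z2 r⟫_ℝ / om k|
      ≤ ∑ k ∈ Finset.range n, |⟪b k, z1 r⟫_ℝ * ⟪b k, z2 r⟫_ℝ / om k| :=
        Finset.abs_sum_le_sum_abs _ _
    _ ≤ ∑ k ∈ Finset.range n, (⟪b k, z1 r⟫_ℝ ^ 2 + ⟪b k, z2 r⟫_ℝ ^ 2) / (2 * om 0) := by
        refine Finset.sum_le_sum fun k _ => ?_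
        have hk : 0 < om k := h0.trans_le (hom k)
        rw [abs_div, abs_of_pos hk, abs_mul, div_le_div_iff₀ hk (by positivity)]
        have h1 : 2 * (|⟪b k, z1 r⟫_ℝ| * |⟪b k, z2 r⟫_ℝ|) ≤
            ⟪b k, z1 r⟫_ℝ ^ 2 + ⟪b k, z2 r⟫_ℝ ^ 2 := by
          rw [← sq_abs ⟪b k, z1 r⟫_ℝ, ← sq_abs ⟪b k, z2 r⟫_ℝ]
          nlinarith [sq_nonneg (|⟪b k, z1 r⟫_ℝ| - |⟪b k, z2 r⟫_ℝ|)]
        calc |⟪b k, z1 r⟫_ℝ| * |⟪b k, z2 r⟫_ℝ| * (2 * om 0)
            = 2 * (|⟪b k, z1 r⟫_ℝ| * |⟪b k, z2 r⟫_ℝ|) * om 0 := by ring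
          _ ≤ (⟪b k, z1 r⟫_ℝ ^ 2 + ⟪b k, z2 r⟫_ℝ ^ 2) * om k := by
              gcongr
              exact hom k
    _ = (∑ k ∈ Finset.range n, ⟪b k, z1 r⟫_ℝ ^ 2 + ∑ k ∈ Finset.range n, ⟪b k, z2 r⟫_ℝ ^ 2) /
          (2 * om 0) := by
        rw [← Finset.sum_div, Finset.sum_add_distrib]
    _ ≤ enr μ z1 z2 r / (2 * om 0) := by
        unfold enr
        gcongr
        · exact bessel b (z1 r) n
        · exact bessel b (z2 r) n

/-- The statement of the row UMI, with the parentheses. -/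
def Umi2Stmt : Prop := ∀ (X : Type) [MeasurableSpace X] (μ : Measure X) (a al : ℝ)
  (b : HilbertBasis ℕ ℝ (Lp ℝ 2 μ)) (om : ℕ → ℝ), 0 < a → 0 < al → Inp μ al b om →
  ∃ C : ℝ, 0 ≤ C ∧ ∀ z1 z2 : ℝ → Lp ℝ 2 μ, CoreSol μ a al b om z1 z2 →
  ∀ s t, 0 ≤ s → s ≤ t → (∫ r in s..t, ‖z1 r‖ ^ 2) ≤ (∫ r in s..t, ‖z2 r‖ ^ 2) +
    enr μ z1 z2 s / om 0 + C * (t - s) ^ (1 / (al + 2)) *
      (∫ r in s..t, Dis μ (al + 2) z2 r) ^ ((al + 1) / (al + 2)) * Real.sqrt (enr μ z1 z2 s)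

theorem umi2 (uen : UenStmt) (upr : UprStmt) (ugh : UghStmt) : Umi2Stmt := by
  intro X _ μ a al b om ha hal hI
  obtain ⟨C, hC0, hC⟩ := ugh X μ a al b om ha hal hI
  refine ⟨C, hC0, ?_⟩
  intro z1 z2 hz s t hs hst
  obtain ⟨ue1, ue2⟩ := uen X μ a al b om ha hal hI z1 z2 hz
  have ht : 0 ≤ t := hs.trans hst
  have hom : ∀ k, om 0 ≤ om k := fun k => hI.mono (Nat.zero_le k)
  have hsub : uIcc s t ⊆ Ici 0 := fun r hr => le_trans (le_min hs ht) hr.1
  obtain ⟨β, hβ⟩ : ∃ β, β = (al + 1) / (al + 2) := ⟨_, rfl⟩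
  have hβ0 : 0 < β := by rw [hβ]; positivity
  have hβ1 : β ≤ 1 := by rw [hβ, div_le_one (by positivity)]; linarith
  have hβ2 : 1 - β = 1 / (al + 2) := by rw [hβ]; field_simp; ring
  have hD0 : ∀ r, 0 ≤ Dis μ (al + 2) z2 r := fun r => ENNReal.toReal_nonneg
  obtain ⟨hd1, hd2⟩ := holder_time hst hβ0 hβ1 (ue1 s t hs hst).1 hD0
  rw [hβ2] at hd2
  have hE0 : 0 ≤ enr μ z1 z2 s := by unfold enr; positivity
  have hz1E : ∀ r, s ≤ r → ‖z1 r‖ ^ 2 ≤ enr μ z1 z2 s := fun r hr => by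
    refine le_trans ?_ (enr_mono hz hs hr)
    unfold enr
    nlinarith [sq_nonneg ‖z2 r‖]
  rw [← hβ]
  have key : ∀ n : ℕ, ∫ r in s..t, ∑ k ∈ Finset.range n, ⟪b k, z1 r⟫_ℝ ^ 2 ≤
      (∫ r in s..t, ‖z2 r‖ ^ 2) + enr μ z1 z2 s / om 0 + C * (t - s) ^ (1 / (al + 2)) *
        (∫ r in s..t, Dis μ (al + 2) z2 r) ^ β * Real.sqrt (enr μ z1 z2 s) := by
    intro n
    have hm := fun k => mode upr hI.pos hz hs hst k
    have e1 : ∫ r in s..t, ∑ k ∈ Finset.range n, ⟪b k, z1 r⟫_ℝ ^ 2 =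
        (∫ r in s..t, ∑ k ∈ Finset.range n, ⟪b k, z2 r⟫_ℝ ^ 2) +
        (∑ k ∈ Finset.range n, ⟪b k, z1 s⟫_ℝ * ⟪b k, z2 s⟫_ℝ / om k -
          ∑ k ∈ Finset.range n, ⟪b k, z1 t⟫_ℝ * ⟪b k, z2 t⟫_ℝ / om k) -
        ∫ r in s..t, ∑ k ∈ Finset.range n, ⟪b k, z1 r⟫_ℝ / om k *
          ∫ x, gf a al (z2 r x) * b k x ∂μ := by
      rw [intervalIntegral.integral_finsetSum fun k _ => (hm k).1,
        intervalIntegral.integral_finsetSum fun k _ => (hm k).2.1,
        intervalIntegral.integral_finsetSum fun k _ => (hm k).2.2.1,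
        ← Finset.sum_sub_distrib, ← Finset.sum_add_distrib, ← Finset.sum_sub_distrib]
      exact Finset.sum_congr rfl fun k _ => (hm k).2.2.2
    have b1 : ∫ r in s..t, ∑ k ∈ Finset.range n, ⟪b k, z2 r⟫_ℝ ^ 2 ≤ ∫ r in s..t, ‖z2 r‖ ^ 2 := by
      refine intervalIntegral.integral_mono_on hst
        (isum n fun k => (hm k).2.1)
        (((hz.c2.mono hsub).norm.pow 2).intervalIntegrable) fun r _ => bessel b (z2 r) n
    have b2 := abs_le.1 (bdry (b := b) (hI.pos 0) hom z1 z2 s n)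
    have b3 := abs_le.1 (bdry (b := b) (hI.pos 0) hom z1 z2 t n)
    have b4 := enr_mono hz hs hst
    have b5 : enr μ z1 z2 t / (2 * om 0) ≤ enr μ z1 z2 s / (2 * om 0) := by
      have := hI.pos 0
      gcongr
    have b6 : enr μ z1 z2 s / (2 * om 0) + enr μ z1 z2 s / (2 * om 0) = enr μ z1 z2 s / om 0 := by
      have := (hI.pos 0).ne'
      field_simp
      ring
    have b7 : -∫ r in s..t, ∑ k ∈ Finset.range n, ⟪b k, z1 r⟫_ℝ / om k *
          ∫ x, gf a al (z2 r x) * b k x ∂μ ≤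
        C * (t - s) ^ (1 / (al + 2)) *
        (∫ r in s..t, Dis μ (al + 2) z2 r) ^ β * Real.sqrt (enr μ z1 z2 s) := by
      have c1 : -∫ r in s..t, ∑ k ∈ Finset.range n, ⟪b k, z1 r⟫_ℝ / om k *
          ∫ x, gf a al (z2 r x) * b k x ∂μ ≤
          ∫ r in s..t, C * Real.sqrt (enr μ z1 z2 s) * Dis μ (al + 2) z2 r ^ β := by
        rw [← intervalIntegral.integral_neg]
        refine intervalIntegral.integral_mono_ae_restrict hst
          (isum n fun k => (hm k).2.2.1).neg (hd1.const_mul _) ?_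
        have c2 : ∀ᵐ r ∂(volume.restrict (Icc s t)), DisE μ (al + 2) z2 r < ⊤ :=
          ae_mono (Measure.restrict_mono (fun r hr => hs.trans hr.1) le_rfl) ue2
        filter_upwards [c2, ae_restrict_mem measurableSet_Icc] with r hr hrI
        have c3 := hC (z2 r) hr n (fun k => ⟪b k, z1 r⟫_ℝ)
        refine ((neg_le_abs _).trans c3).trans ?_
        rw [← hβ]
        have c4 : Real.sqrt (∑ k ∈ Finset.range n, ⟪b k, z1 r⟫_ℝ ^ 2) ≤
            Real.sqrt (enr μ z1 z2 s) :=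
          Real.sqrt_le_sqrt ((bessel b (z1 r) n).trans (hz1E r hrI.1))
        have c5 : 0 ≤ (∫⁻ x, ENNReal.ofReal (|z2 r x| ^ (al + 2)) ∂μ).toReal ^ β :=
          Real.rpow_nonneg ENNReal.toReal_nonneg _
        calc C * (∫⁻ x, ENNReal.ofReal (|z2 r x| ^ (al + 2)) ∂μ).toReal ^ β *
              Real.sqrt (∑ k ∈ Finset.range n, ⟪b k, z1 r⟫_ℝ ^ 2)
            ≤ C * (∫⁻ x, ENNReal.ofReal (|z2 r x| ^ (al + 2)) ∂μ).toReal ^ β *
              Real.sqrt (enr μ z1 z2 s) := by gcongr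
          _ = C * Real.sqrt (enr μ z1 z2 s) * Dis μ (al + 2) z2 r ^ β := by
              unfold Dis DisE
              ring
      rw [intervalIntegral.integral_const_mul] at c1
      refine c1.trans ?_
      calc C * Real.sqrt (enr μ z1 z2 s) * ∫ r in s..t, Dis μ (al + 2) z2 r ^ β
          ≤ C * Real.sqrt (enr μ z1 z2 s) * ((t - s) ^ (1 / (al + 2)) *
            (∫ r in s..t, Dis μ (al + 2) z2 r) ^ β) := by gcongr
        _ = _ := by ring
    rw [e1]
    linarith [b2.2, b3.1]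
  have lim : Tendsto (fun n : ℕ => ∫ r in s..t, ∑ k ∈ Finset.range n, ⟪b k, z1 r⟫_ℝ ^ 2) atTop
      (𝓝 (∫ r in s..t, ‖z1 r‖ ^ 2)) := by
    refine intervalIntegral.tendsto_integral_filter_of_dominated_convergence
      (fun _ => enr μ z1 z2 s) ?_ ?_ intervalIntegrable_const ?_
    · refine Eventually.of_forall fun n => ?_
      exact (isum n fun k => (mode upr hI.pos hz hs hst k).1).def'.aestronglyMeasurable
    · refine Eventually.of_forall fun n => Eventually.of_forall fun r hr => ?_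
      rw [uIoc_of_le hst] at hr
      rw [Real.norm_of_nonneg (Finset.sum_nonneg fun k _ => sq_nonneg _)]
      exact (bessel b (z1 r) n).trans (hz1E r hr.1.le)
    · exact Eventually.of_forall fun r _ => (parseval b (z1 r)).tendsto_sum_nat
  exact le_of_tendsto' lim key

end

end Pool.Agent.BEL.H16
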